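import Mathlib

/-!
# Piecewise linear interpolation
-/

namespace LevelTotal

/-- clamp to the unit interval -/
noncomputable def cl (y : ℝ) : ℝ := max 0 (min y 1)

theorem cl_cont : Continuous cl := by unfold cl; fun_prop

theorem cl_of_le {y : ℝ} (h : y ≤ 0) : cl y = 0 := by
  unfold cl
  exact max_eq_left ((min_le_left _ _).trans h)

theorem cl_of_ge {y : ℝ} (h : 1 ≤ y) : cl y = 1 := by
  unfold cl
  rw [min_eq_right h]
  norm_num

theorem cl_of_mem {y : ℝ} (h0 : 0 ≤ y) (h1 : y ≤ 1) : cl y = y := by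
  unfold cl
  rw [min_eq_left h1, max_eq_right h0]

/-- piecewise linear interpolation of `κ 0, ..., κ T`, constant outside `[0, T]` -/
noncomputable def itp (κ : ℕ → ℝ) : ℕ → ℝ → ℝ
  | 0, _ => κ 0
  | T + 1, x => itp κ T x + (κ (T + 1) - κ T) * cl (x - T)

theorem itp_cont (κ : ℕ → ℝ) (T : ℕ) : Continuous (itp κ T) := by
  induction T with
  | zero => exact continuous_const
  | succ T ih =>
    have : Continuous fun x : ℝ => cl (x - T) := cl_cont.comp (by fun_prop)
    exact ih.add (this.const_mul _)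

theorem itp_right (κ : ℕ → ℝ) (T : ℕ) {x : ℝ} (h : (T : ℝ) ≤ x) : itp κ T x = κ T := by
  induction T with
  | zero => rfl
  | succ T ih =>
    push_cast at h
    simp only [itp]
    rw [ih (by linarith), cl_of_ge (by linarith)]
    ring

theorem itp_left (κ : ℕ → ℝ) (T : ℕ) {x : ℝ} (h : x ≤ 0) : itp κ T x = κ 0 := by
  induction T with
  | zero => rfl
  | succ T ih =>
    have : (0 : ℝ) ≤ T := Nat.cast_nonneg T
    simp only [itp]
    rw [ih, cl_of_le (by linarith)]
    ring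

theorem itp_on (κ : ℕ → ℝ) {T t : ℕ} (ht : t < T) {x : ℝ} (h0 : (t : ℝ) ≤ x)
    (h1 : x ≤ t + 1) : itp κ T x = κ t + (x - t) * (κ (t + 1) - κ t) := by
  induction T with
  | zero => omega
  | succ T ih =>
    simp only [itp]
    rcases Nat.eq_or_lt_of_le (Nat.le_of_lt_succ ht) with h | h
    · subst h
      rw [itp_right κ t h0, cl_of_mem (by linarith) (by linarith)]
      ring
    · have h2 : ((t : ℝ) + 1) ≤ T := by exact_mod_cast h
      rw [ih h, cl_of_le (by linarith)]
      ring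

theorem itp_nat (κ : ℕ → ℝ) {T t : ℕ} (ht : t ≤ T) : itp κ T t = κ t := by
  rcases Nat.eq_or_lt_of_le ht with h | h
  · subst h
    exact itp_right κ t le_rfl
  · rw [itp_on κ h le_rfl (by linarith)]
    ring

theorem itp_sub (κ κ' : ℕ → ℝ) (T : ℕ) (x : ℝ) :
    itp κ T x - itp κ' T x = itp (fun t => κ t - κ' t) T x := by
  induction T with
  | zero => rfl
  | succ T ih =>
    simp only [itp]
    rw [← ih]
    ring

theorem itp_neg (κ : ℕ → ℝ) (T : ℕ) (x : ℝ) : itp (fun t => - κ t) T x = - itp κ T x := by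
  induction T with
  | zero => rfl
  | succ T ih =>
    simp only [itp]
    rw [ih]
    ring

/-- every point lies in one of the pieces -/
theorem cover (T : ℕ) (x : ℝ) : x ≤ 0 ∨ (∃ t < T, (t : ℝ) ≤ x ∧ x ≤ t + 1) ∨ (T : ℝ) ≤ x := by
  rcases le_or_gt x 0 with h | h
  · exact Or.inl h
  rcases le_or_gt (T : ℝ) x with h' | h'
  · exact Or.inr (Or.inr h')
  · refine Or.inr (Or.inl ⟨⌊x⌋₊, ?_, Nat.floor_le h.le, (Nat.lt_floor_add_one x).le⟩)
    exact (Nat.floor_lt h.le).2 h'

theorem itp_pos {D : ℕ → ℝ} {T m : ℕ} (hm : m ≤ T) (h : ∀ t ≤ m, 0 < D t) {x : ℝ}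
    (hx : x ≤ m) : 0 < itp D T x := by
  rcases cover T x with h1 | ⟨t, ht, h1, h2⟩ | h1
  · rw [itp_left D T h1]
    exact h 0 (Nat.zero_le _)
  · have htm : t ≤ m := by
      have : (t : ℝ) ≤ m := h1.trans hx
      exact_mod_cast this
    rcases Nat.eq_or_lt_of_le htm with h3 | h3
    · have h4 : x = t := le_antisymm (by rw [h3]; exact hx) h1
      rw [h4, itp_nat D ht.le]
      exact h t htm
    · rw [itp_on D ht h1 h2]
      have a1 := h t htm
      have a2 := h (t + 1) h3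
      have e : D t + (x - t) * (D (t + 1) - D t) = (1 - (x - t)) * D t + (x - t) * D (t + 1) := by
        ring
      rw [e]
      rcases eq_or_lt_of_le h1 with h5 | h5
      · rw [← h5]
        simpa using a1
      · have b1 : 0 ≤ (1 - (x - t)) * D t := mul_nonneg (by linarith) a1.le
        have b2 : 0 < (x - t) * D (t + 1) := mul_pos (by linarith) a2
        linarith
  · have h3 : m = T := by
      have : (T : ℝ) ≤ m := h1.trans hx
      have : T ≤ m := by exact_mod_cast this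
      omega
    rw [itp_right D T h1]
    exact h T h3.ge

theorem itp_neg_of {D : ℕ → ℝ} {T m : ℕ} (hm : m ≤ T) (h : ∀ t, m ≤ t → t ≤ T → D t < 0) {x : ℝ}
    (hx : (m : ℝ) ≤ x) : itp D T x < 0 := by
  rcases cover T x with h1 | ⟨t, ht, h1, h2⟩ | h1
  · have h3 : m = 0 := by
      have : (m : ℝ) ≤ 0 := hx.trans h1
      have : m ≤ 0 := by exact_mod_cast this
      omega
    rw [itp_left D T h1]
    exact h 0 (by omega) (Nat.zero_le _)
  · have htm : m ≤ t + 1 := by
      have : (m : ℝ) ≤ t + 1 := hx.trans h2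
      exact_mod_cast this
    rcases Nat.eq_or_lt_of_le htm with h3 | h3
    · have h4 : x = ((t + 1 : ℕ) : ℝ) := by
        refine le_antisymm (by push_cast; exact h2) ?_
        rw [← h3]
        exact hx
      rw [h4, itp_nat D (by omega)]
      exact h (t + 1) (by omega) (by omega)
    · rw [itp_on D ht h1 h2]
      have a1 := h t (by omega) ht.le
      have a2 := h (t + 1) (by omega) ht
      have e : D t + (x - t) * (D (t + 1) - D t) = (1 - (x - t)) * D t + (x - t) * D (t + 1) := by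
        ring
      rw [e]
      rcases eq_or_lt_of_le h1 with h5 | h5
      · rw [← h5]
        simpa using a1
      · have b1 : (1 - (x - t)) * D t ≤ 0 := mul_nonpos_of_nonneg_of_nonpos (by linarith) a1.le
        have b2 : (x - t) * D (t + 1) < 0 := mul_neg_of_pos_of_neg (by linarith) a2
        linarith
  · rw [itp_right D T h1]
    exact h T hm le_rfl

/-- exactly one zero -/
theorem itp_single {D : ℕ → ℝ} {T t₀ : ℕ} (ht : t₀ < T) (h0 : ∀ t ≤ t₀, 0 < D t)
    (h1 : ∀ t, t₀ + 1 ≤ t → t ≤ T → D t < 0) :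
    ∃ x, itp D T x = 0 ∧ (∀ y < x, 0 < itp D T y) ∧ ∀ y > x, itp D T y < 0 := by
  have a0 := h0 t₀ le_rfl
  have a1 := h1 (t₀ + 1) le_rfl ht
  have hd : 0 < D t₀ - D (t₀ + 1) := by linarith
  set r := D t₀ / (D t₀ - D (t₀ + 1)) with hr
  have r0 : 0 < r := div_pos a0 hd
  have r1 : r < 1 := by
    rw [hr, div_lt_one hd]
    linarith
  have hrd : r * (D t₀ - D (t₀ + 1)) = D t₀ := by
    rw [hr]
    exact div_mul_cancel₀ _ hd.ne'
  refine ⟨t₀ + r, ?_, fun y hy => ?_, fun y hy => ?_⟩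
  · rw [itp_on D ht (by linarith) (by linarith)]
    linarith
  · rcases le_or_gt y t₀ with h | h
    · exact itp_pos ht.le h0 h
    · rw [itp_on D ht h.le (by linarith)]
      have : (y - t₀) * (D t₀ - D (t₀ + 1)) < r * (D t₀ - D (t₀ + 1)) :=
        mul_lt_mul_of_pos_right (by linarith) hd
      linarith
  · rcases le_or_gt ((t₀ : ℝ) + 1) y with h | h
    · exact itp_neg_of (m := t₀ + 1) ht (fun t ht ht' => h1 t ht ht') (by push_cast; exact h)
    · rw [itp_on D ht (by linarith) h.le]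
      have : r * (D t₀ - D (t₀ + 1)) < (y - t₀) * (D t₀ - D (t₀ + 1)) :=
        mul_lt_mul_of_pos_right (by linarith) hd
      linarith

/-- the zeros -/
theorem itp_zero {D : ℕ → ℝ} {T : ℕ} (hD : ∀ t ≤ T, D t ≠ 0) {x : ℝ} (hx : itp D T x = 0) :
    ∃ t < T, (t : ℝ) < x ∧ x < t + 1 ∧ D t * D (t + 1) < 0 ∧ (x - t) * (D t - D (t + 1)) = D t := by
  rcases cover T x with h1 | ⟨t, ht, h1, h2⟩ | h1
  · rw [itp_left D T h1] at hx
    exact absurd hx (hD 0 (Nat.zero_le _))
  · have hx' := hx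
    rw [itp_on D ht h1 h2] at hx'
    have n0 := hD t ht.le
    have n1 := hD (t + 1) ht
    have l0 : (t : ℝ) < x := by
      refine lt_of_le_of_ne h1 (fun h => n0 ?_)
      rw [← h] at hx'
      simpa using hx'
    have l1 : x < t + 1 := by
      refine lt_of_le_of_ne h2 (fun h => n1 ?_)
      rw [h] at hx'
      have : D (t + 1) = D t + ((t : ℝ) + 1 - t) * (D (t + 1) - D t) := by ring
      rw [this]
      exact hx'
    refine ⟨t, ht, l0, l1, ?_, by linarith⟩
    have e : (1 - (x - t)) * D t = - ((x - t) * D (t + 1)) := by linarith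
    have p1 : 0 < 1 - (x - t) := by linarith
    have p2 : 0 < x - t := by linarith
    have e2 : (1 - (x - t)) * (D t * D (t + 1)) = - ((x - t) * D (t + 1) ^ 2) := by
      calc (1 - (x - t)) * (D t * D (t + 1)) = ((1 - (x - t)) * D t) * D (t + 1) := by ring
        _ = - ((x - t) * D (t + 1) ^ 2) := by rw [e]; ring
    have p3 : 0 < (x - t) * D (t + 1) ^ 2 := by positivity
    by_contra hcon
    rw [not_lt] at hcon
    have := mul_nonneg p1.le hcon
    rw [e2] at this
    linarith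
  · rw [itp_right D T h1] at hx
    exact absurd hx (hD T le_rfl)

/-- near a zero the function changes its sign -/
theorem itp_crosses {D : ℕ → ℝ} {T : ℕ} (hD : ∀ t ≤ T, D t ≠ 0) {x : ℝ} (hx : itp D T x = 0) :
    ∃ ε > 0, ∀ y, 0 < y → y < ε → itp D T (x - y) * itp D T (x + y) < 0 := by
  obtain ⟨t, ht, h1, h2, h3, h4⟩ := itp_zero hD hx
  refine ⟨min (x - t) (t + 1 - x), lt_min (by linarith) (by linarith), fun y hy0 hy1 => ?_⟩
  have y1 := hy1.trans_le (min_le_left _ _)
  have y2 := hy1.trans_le (min_le_right _ _)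
  rw [itp_on D ht (by linarith) (by linarith), itp_on D ht (by linarith) (by linarith)]
  have hne : D (t + 1) - D t ≠ 0 := by
    intro h
    have : D (t + 1) = D t := by linarith
    rw [this] at h3
    have := mul_self_nonneg (D t)
    linarith
  have e1 : D t + (x - y - t) * (D (t + 1) - D t) = - y * (D (t + 1) - D t) := by linarith
  have e2 : D t + (x + y - t) * (D (t + 1) - D t) = y * (D (t + 1) - D t) := by linarith
  rw [e1, e2]
  have : 0 < y ^ 2 * (D (t + 1) - D t) ^ 2 := by positivity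
  nlinarith

/-- the number of zeros -/
theorem itp_encard {D : ℕ → ℝ} {T s q : ℕ} {φ : ℕ → ℕ} (hφ : Monotone φ)
    (hb : ∀ t, q ≤ φ t ∧ φ t ≤ q + s) (hD : ∀ t ≤ T, 0 < (-1) ^ (φ t) * D t) :
    {x | itp D T x = 0}.encard ≤ s := by
  have hne : ∀ t ≤ T, D t ≠ 0 := by
    intro t ht h
    have := hD t ht
    rw [h, mul_zero] at this
    exact lt_irrefl _ this
  have hlt : ∀ t < T, D t * D (t + 1) < 0 → φ t < φ (t + 1) := by
    intro t ht h
    refine lt_of_le_of_ne (hφ (Nat.le_succ t)) (fun he => ?_)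
    have h1 := hD t ht.le
    have h2 := hD (t + 1) ht
    rw [← he] at h2
    have h3 := mul_pos h1 h2
    have h4 : ((-1 : ℝ) ^ φ t * D t) * ((-1) ^ φ t * D (t + 1)) =
        ((-1 : ℝ) ^ φ t * (-1) ^ φ t) * (D t * D (t + 1)) := by ring
    rw [h4, ← mul_pow] at h3
    norm_num at h3
    linarith
  have hfl : ∀ x ∈ {x | itp D T x = 0}, ⌊x⌋₊ < T ∧ D ⌊x⌋₊ * D (⌊x⌋₊ + 1) < 0 ∧
      (x - ⌊x⌋₊) * (D ⌊x⌋₊ - D (⌊x⌋₊ + 1)) = D ⌊x⌋₊ := by
    intro x hx
    obtain ⟨t, ht, h1, h2, h3, h4⟩ := itp_zero hne hx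
    have : ⌊x⌋₊ = t := (Nat.floor_eq_iff (by
      have : (0 : ℝ) ≤ t := Nat.cast_nonneg t
      linarith)).2 ⟨h1.le, h2⟩
    rw [this]
    exact ⟨ht, h3, h4⟩
  have hinj : Set.InjOn (fun x : ℝ => φ ⌊x⌋₊) {x | itp D T x = 0} := by
    intro x hx y hy hxy
    dsimp only at hxy
    obtain ⟨x1, x2, x3⟩ := hfl x hx
    obtain ⟨y1, y2, y3⟩ := hfl y hy
    have hf : ⌊x⌋₊ = ⌊y⌋₊ := by
      rcases lt_trichotomy ⌊x⌋₊ ⌊y⌋₊ with h | h | h
      · have := (hlt _ x1 x2).trans_le (hφ h)
        omega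
      · exact h
      · have := (hlt _ y1 y2).trans_le (hφ h)
        omega
    rw [hf] at x3 x2
    have hd : D ⌊y⌋₊ - D (⌊y⌋₊ + 1) ≠ 0 := by
      intro h0
      have e : D ⌊y⌋₊ = D (⌊y⌋₊ + 1) := by linarith
      rw [← e] at y2
      have := mul_self_nonneg (D ⌊y⌋₊)
      linarith
    have h5 := mul_right_cancel₀ hd (x3.trans y3.symm)
    linarith
  rw [← hinj.encard_image]
  refine (Set.encard_le_encard (t := (Finset.Ico q (q + s) : Set ℕ)) ?_).trans ?_
  · rintro _ ⟨x, hx, rfl⟩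
    obtain ⟨x1, x2, x3⟩ := hfl x hx
    have h1 := hlt _ x1 x2
    have h2 := (hb (⌊x⌋₊ + 1)).2
    have h3 := (hb ⌊x⌋₊).1
    rw [Finset.mem_coe, Finset.mem_Ico]
    dsimp only
    omega
  · rw [Set.encard_coe_eq_coe_finsetCard, Nat.card_Ico, Nat.add_sub_cancel_left]

end LevelTotal
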