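import Pool.Agent.LevelPseudo.Defs

/-!
# A vertex on the level between two times
-/

namespace LevelTotal

open Set LevelPseudo

/-- If the functions of `A` are above the others at `x₀` and this is no longer true at `x₁`, then
there is a vertex of the level `n - |A|` in between. -/
theorem exists_point {n : ℕ} {f : Fin n → ℝ → ℝ} (hf : ∀ i, Continuous (f i))
    {A : Finset (Fin n)} {x₀ x₁ : ℝ} (h01 : x₀ < x₁)
    (h0 : ∀ c ∉ A, ∀ d ∈ A, f c x₀ < f d x₀) {c d : Fin n} (hc : c ∉ A) (hd : d ∈ A)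
    (h1 : f d x₁ < f c x₁) :
    ∃ p : ℝ × ℝ, x₀ < p.1 ∧ p.1 < x₁ ∧ p ∈ verticesT f ∧ p ∈ levelT f (n - A.card) := by
  classical
  have hA : A.Nonempty := ⟨d, hd⟩
  have hB : Aᶜ.Nonempty := ⟨c, Finset.mem_compl.2 hc⟩
  -- the lowest function of `A`, the highest of the complement
  set M : ℝ → ℝ := fun x => A.inf' hA (fun i => f i x) with hM
  set m : ℝ → ℝ := fun x => Aᶜ.sup' hB (fun i => f i x) with hm
  have hMc : Continuous M := Continuous.finset_inf'_apply hA (fun i _ => hf i)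
  have hmc : Continuous m := Continuous.finset_sup'_apply hB (fun i _ => hf i)
  have hMle : ∀ x, ∀ i ∈ A, M x ≤ f i x := fun x i hi => Finset.inf'_le _ hi
  have hmle : ∀ x, ∀ i ∉ A, f i x ≤ m x := fun x i hi =>
    Finset.le_sup' (fun i => f i x) (Finset.mem_compl.2 hi)
  have hMex : ∀ x, ∃ i ∈ A, f i x = M x := by
    intro x
    obtain ⟨i, hi, h⟩ := Finset.exists_mem_eq_inf' hA (fun i => f i x)
    exact ⟨i, hi, h.symm⟩
  have hmex : ∀ x, ∃ i ∉ A, f i x = m x := by
    intro x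
    obtain ⟨i, hi, h⟩ := Finset.exists_mem_eq_sup' hB (fun i => f i x)
    exact ⟨i, Finset.mem_compl.1 hi, h.symm⟩
  have hs0 : m x₀ < M x₀ := by
    obtain ⟨i, hi, e⟩ := hMex x₀
    obtain ⟨j, hj, e'⟩ := hmex x₀
    rw [← e, ← e']
    exact h0 j hj i hi
  have hs1 : M x₁ < m x₁ := (hMle x₁ d hd).trans_lt (h1.trans_le (hmle x₁ c hc))
  -- the first common point
  set Z : Set ℝ := Icc x₀ x₁ ∩ {x | M x ≤ m x} with hZ
  have hZc : IsClosed Z := isClosed_Icc.inter (isClosed_le hMc hmc)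
  have hZne : Z.Nonempty := ⟨x₁, ⟨h01.le, le_rfl⟩, hs1.le⟩
  have hZb : BddBelow Z := ⟨x₀, fun x hx => hx.1.1⟩
  set xs := sInf Z with hxs
  have hxZ : xs ∈ Z := hZc.csInf_mem hZne hZb
  have hlt0 : x₀ < xs := by
    refine lt_of_le_of_ne hxZ.1.1 (fun h => ?_)
    have := hxZ.2
    rw [← h] at this
    exact absurd hs0 (not_lt.2 this)
  have hbef : ∀ x, x₀ ≤ x → x < xs → m x < M x := by
    intro x hx0 hx1
    by_contra hcon
    rw [not_lt] at hcon
    have : x ∈ Z := ⟨⟨hx0, hx1.le.trans hxZ.1.2⟩, hcon⟩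
    exact absurd (csInf_le hZb this) (not_le.2 hx1)
  have hcl : xs ∈ closure (Ico x₀ xs) := by
    rw [closure_Ico hlt0.ne]
    exact ⟨hlt0.le, le_rfl⟩
  have heq : m xs = M xs := by
    refine le_antisymm ?_ hxZ.2
    have h2 : closure (Ico x₀ xs) ⊆ {x | m x ≤ M x} :=
      closure_minimal (fun x hx => (hbef x hx.1 hx.2).le) (isClosed_le hmc hMc)
    exact h2 hcl
  have hlt1 : xs < x₁ := by
    refine lt_of_le_of_ne hxZ.1.2 (fun h => ?_)
    rw [h] at heq
    exact absurd hs1 (by rw [heq]; exact lt_irrefl _)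
  refine ⟨(xs, M xs), hlt0, hlt1, ?_, ?_⟩
  · obtain ⟨i, hi, e⟩ := hMex xs
    obtain ⟨j, hj, e'⟩ := hmex xs
    exact ⟨i, j, fun h => hj (h ▸ hi), e.symm, (e'.trans heq).symm⟩
  · have hG : Continuous fun x : ℝ => (x, M x) := continuous_id.prodMk hMc
    have h2 : (xs, M xs) ∈ closure ((fun x : ℝ => (x, M x)) '' Ico x₀ xs) :=
      image_closure_subset_closure_image hG ⟨xs, hcl, rfl⟩
    refine closure_mono ?_ h2
    rintro _ ⟨x, hx, rfl⟩
    obtain ⟨i, hi, e⟩ := hMex x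
    refine ⟨⟨i, e.symm⟩, ?_⟩
    have h3 : {i | f i x < M x} = ((Aᶜ : Finset (Fin n)) : Set (Fin n)) := by
      ext j
      rw [Set.mem_ofPred_eq, Finset.mem_coe, Finset.mem_compl]
      constructor
      · intro h4 hj
        exact absurd h4 (not_lt.2 (hMle x j hj))
      · intro hj
        exact (hmle x j hj).trans_lt (hbef x hx.1 hx.2)
    change {i | f i x < M x}.ncard = _
    rw [h3, Set.ncard_coe_finset, Finset.card_compl, Fintype.card_fin]

/-- the set of vertices is finite -/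
theorem vert_finite {n : ℕ} {f : Fin n → ℝ → ℝ}
    (h : ∀ i j, i ≠ j → {x | f i x = f j x}.Finite) : (verticesT f).Finite := by
  classical
  have h1 : (⋃ ij : Fin n × Fin n, if ij.1 = ij.2 then (∅ : Set (ℝ × ℝ)) else
      (fun x => (x, f ij.1 x)) '' {x | f ij.1 x = f ij.2 x}).Finite := by
    refine Set.finite_iUnion (fun ij => ?_)
    split_ifs with hij
    · exact Set.finite_empty
    · exact (h _ _ hij).image _
  refine h1.subset ?_
  rintro ⟨x, y⟩ ⟨i, j, hij, e1, e2⟩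
  refine Set.mem_iUnion.2 ⟨(i, j), ?_⟩
  dsimp only at e1 e2 ⊢
  rw [if_neg hij]
  exact ⟨x, e1.symm.trans e2, Prod.ext rfl e1.symm⟩

/-- many vertices on the level -/
theorem le_psiT {n N k : ℕ} {f : Fin n → ℝ → ℝ}
    (hfin : (verticesT f).Finite) (h : ∀ t < N, ∃ p : ℝ × ℝ, (t : ℝ) < p.1 ∧ p.1 < t + 1 ∧ p ∈ verticesT f ∧
      p ∈ levelT f k) : N ≤ psiT f k := by
  classical
  choose! p h1 h2 h3 h4 using h
  have hinj : Set.InjOn p (Finset.range N : Set ℕ) := by
    intro t ht t' ht' heq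
    have a := Finset.mem_range.1 (Finset.mem_coe.1 ht)
    have a' := Finset.mem_range.1 (Finset.mem_coe.1 ht')
    have b1 := h1 t a
    have b2 := h2 t a
    have b3 := h1 t' a'
    have b4 := h2 t' a'
    rw [heq] at b1 b2
    have c1 : (t : ℝ) < t' + 1 := b1.trans b4
    have c2 : (t' : ℝ) < t + 1 := b3.trans b2
    have c3 : t < t' + 1 := by exact_mod_cast c1
    have c4 : t' < t + 1 := by exact_mod_cast c2
    omega
  have hsub : p '' (Finset.range N : Set ℕ) ⊆ verticesT f ∩ levelT f k := by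
    rintro _ ⟨t, ht, rfl⟩
    have a := Finset.mem_range.1 (Finset.mem_coe.1 ht)
    exact ⟨h3 t a, h4 t a⟩
  have h5 := Set.ncard_le_ncard hsub (hfin.subset Set.inter_subset_left)
  rw [hinj.ncard_image, Set.ncard_coe_finset, Finset.card_range] at h5
  exact h5

end LevelTotal
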