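import Pool.Agent.LevelTotal.Keys
import Pool.Agent.LevelTotal.Interp
import Pool.Agent.LevelTotal.LevelPt

/-!
# From sequences of sets to families of functions
-/

namespace LevelTotal

open LevelLower LevelPseudo

/-- the steps of a sequence of sets of the same size -/
theorem exists_swap {n k : ℕ} {A B : Finset (Fin n)} (hA : A.card = k) (hB : B.card = k)
    (hne : A ≠ B) : ∃ c d, c ∉ A ∧ c ∈ B ∧ d ∈ A ∧ d ∉ B := by
  obtain ⟨c, hc, hc'⟩ : ∃ c ∈ B, c ∉ A := by
    by_contra hcon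
    push Not at hcon
    exact hne (Finset.eq_of_subset_of_card_le hcon (by omega)).symm
  obtain ⟨d, hd, hd'⟩ : ∃ d ∈ A, d ∉ B := by
    by_contra hcon
    push Not at hcon
    exact hne (Finset.eq_of_subset_of_card_le hcon (by omega))
  exact ⟨c, d, hc', hc, hd, hd'⟩

/-- the values of the functions at the integer times -/
noncomputable def kv {n : ℕ} (N : ℕ) (S : ℕ → Finset (Fin n)) (c : Fin n) (t : ℕ) : ℝ :=
  if t ≤ N then (ktm N S t c : ℝ) else -(ktm N S 0 c : ℝ)

theorem kv_le {n N : ℕ} {S : ℕ → Finset (Fin n)} {c : Fin n} {t : ℕ} (ht : t ≤ N) :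
    kv N S c t = ktm N S t c := if_pos ht

theorem kv_gt {n N : ℕ} {S : ℕ → Finset (Fin n)} {c : Fin n} :
    kv N S c (N + 1) = -(ktm N S 0 c : ℝ) := if_neg (by omega)

theorem points {n N k T : ℕ} {S : ℕ → Finset (Fin n)} (hNT : N ≤ T)
    (hcard : ∀ t ≤ N, (S t).card = k) (hne : ∀ t < N, S t ≠ S (t + 1)) :
    ∀ t < N, ∃ p : ℝ × ℝ, (t : ℝ) < p.1 ∧ p.1 < t + 1 ∧
      p ∈ verticesT (fun c => itp (kv N S c) T) ∧ p ∈ levelT (fun c => itp (kv N S c) T) (n - k) := by
  intro t ht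
  obtain ⟨c, d, h1, h2, h3, h4⟩ := exists_swap (hcard t ht.le) (hcard (t + 1) ht) (hne t ht)
  have e : ∀ c, itp (kv N S c) T (t : ℝ) = ktm N S t c := fun c => by
    rw [itp_nat _ (ht.le.trans hNT), kv_le ht.le]
  have e' : ∀ c, itp (kv N S c) T ((t : ℝ) + 1) = ktm N S (t + 1) c := fun c => by
    have := itp_nat (kv N S c) (T := T) (t := t + 1) (by omega)
    push_cast at this
    rw [this, kv_le (by omega)]
  obtain ⟨p, a1, a2, a3, a4⟩ := exists_point (f := fun c => itp (kv N S c) T)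
    (fun i => itp_cont _ _) (A := S t) (x₀ := t) (x₁ := t + 1) (by linarith) (by
      intro i hi j hj
      rw [e, e]
      exact_mod_cast ktm_mem ht.le hj hi) h1 h3 (by
      rw [e', e']
      exact_mod_cast ktm_mem (by omega) h2 h4)
  rw [hcard t ht.le] at a4
  exact ⟨p, a1, a2, a3, a4⟩

/-- the phases of the differences, in the reals -/
theorem phR {n N s : ℕ} {S : ℕ → Finset (Fin n)} {a b : Fin n} (hab : a ≠ b)
    (h : ∃ p, Ph (fun t => sdf (S t) a b) 0 (N + 1) p (p + s)) :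
    ∃ (q : ℕ) (φ : ℕ → ℕ), Monotone φ ∧ (∀ t, q ≤ φ t ∧ φ t ≤ q + s) ∧
      ∀ t ≤ N, (0 : ℝ) < (-1) ^ (φ t) * (kv N S a t - kv N S b t) := by
  obtain ⟨p, hp⟩ := h
  obtain ⟨q, φ, h1, h2, h3⟩ := strictPh hab hp
  refine ⟨q, φ, h1, h2, fun t ht => ?_⟩
  rw [kv_le ht, kv_le ht]
  exact_mod_cast h3 t ht

/-- **From sequences of sets to families of functions.** -/
theorem total_of_kseq {s n N : ℕ} (h : KSeq s n N) (hN : 1 ≤ N) :
    ∃ f : Fin n → ℝ → ℝ, (∀ i, Continuous (f i)) ∧ (∀ i j, i ≠ j → (common f i j).encard ≤ s) ∧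
      ∃ k < n, N ≤ psiT f k := by
  obtain ⟨k, S, hcard, hne, hs⟩ := h
  have hfam : ∀ i j, i ≠ j → (common (fun c => itp (kv N S c) N) i j).encard ≤ s := by
    intro i j hij
    obtain ⟨q, φ, h1, h2, h3⟩ := phR hij (hs i j hij)
    have h4 := itp_encard (T := N) h1 h2 h3
    refine le_trans (le_of_eq ?_) h4
    congr 1
    ext x
    simp only [common, Set.mem_ofPred_eq]
    rw [← itp_sub, sub_eq_zero]
  refine ⟨fun c => itp (kv N S c) N, fun i => itp_cont _ _, hfam, n - k, ?_, ?_⟩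
  · obtain ⟨c, d, h1, h2, h3, h4⟩ := exists_swap (hcard 0 (by omega)) (hcard 1 hN) (hne 0 hN)
    have : 0 < (S 0).card := Finset.card_pos.2 ⟨d, h3⟩
    rw [hcard 0 (by omega)] at this
    have := d.2
    omega
  · exact le_psiT (vert_finite fun i j hij => Set.finite_of_encard_le_coe (hfam i j hij))
      (points le_rfl hcard hne)

/-- one sign change -/
theorem one_zero {D : ℕ → ℝ} {N q : ℕ} {φ : ℕ → ℕ} (h1 : Monotone φ)
    (h2 : ∀ t, q ≤ φ t ∧ φ t ≤ q + 1) (h3 : ∀ t ≤ N, (0 : ℝ) < (-1) ^ (φ t) * D t)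
    (h4 : D (N + 1) = - D 0) (h0 : 0 < D 0) :
    ∃ x, itp D (N + 1) x = 0 ∧ (∀ y < x, 0 < itp D (N + 1) y) ∧ ∀ y > x, itp D (N + 1) y < 0 := by
  classical
  have hne : ∀ t ≤ N, D t ≠ 0 := by
    intro t ht h
    have := h3 t ht
    rw [h, mul_zero] at this
    exact lt_irrefl _ this
  have hev : ∀ t ≤ N, (0 < D t ↔ Even (φ t)) := by
    intro t ht
    have := h3 t ht
    rcases Nat.even_or_odd (φ t) with h | h
    · rw [h.neg_one_pow, one_mul] at this
      exact ⟨fun _ => h, fun _ => this⟩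
    · rw [h.neg_one_pow] at this
      constructor
      · intro h5
        linarith
      · intro h5
        exact absurd h5 (Nat.not_even_iff_odd.2 h)
  set t₀ := Nat.findGreatest (fun t => 0 < D t) N with ht₀
  have g1 : 0 < D t₀ := Nat.findGreatest_spec (P := fun t => 0 < D t) (Nat.zero_le N) h0
  have g2 : t₀ ≤ N := Nat.findGreatest_le N
  have g3 : ∀ t, t₀ < t → t ≤ N → D t < 0 := by
    intro t ht ht'
    have : ¬ 0 < D t := Nat.findGreatest_is_greatest (P := fun t => 0 < D t) ht ht'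
    exact lt_of_le_of_ne (not_lt.1 this) (hne t ht')
  refine itp_single (t₀ := t₀) (by omega) (fun t ht => ?_) (fun t ht ht' => ?_)
  · rw [hev t (ht.trans g2)]
    have e0 := (hev 0 (Nat.zero_le _)).1 h0
    have e1 := (hev t₀ g2).1 g1
    have m1 := h1 (Nat.zero_le t)
    have m2 := h1 ht
    have b1 := h2 0
    have b2 := h2 t₀
    obtain ⟨u, hu⟩ := e0
    obtain ⟨v, hv⟩ := e1
    have : φ t = φ 0 := by omega
    rw [this]
    exact ⟨u, hu⟩
  · rcases Nat.eq_or_lt_of_le ht' with h | h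
    · rw [h, h4]
      linarith
    · exact g3 t ht (by omega)

/-- **From sequences of sets with one alternation to pseudolines.** -/
theorem lines_of_kseq {n N : ℕ} (h : KSeq 1 n N) (hN : 1 ≤ N) :
    ∃ f : Fin n → ℝ → ℝ, (∀ i, Continuous (f i)) ∧
      (∀ i j, i ≠ j → ∃ x, Crosses (f i) (f j) x) ∧ ∃ k < n, N ≤ psiT f k := by
  obtain ⟨k, S, hcard, hne, hs⟩ := h
  have hpair : ∀ i j, i ≠ j → ktm N S 0 j < ktm N S 0 i → ∃ x, itp (kv N S i) (N + 1) x =
      itp (kv N S j) (N + 1) x ∧ (∀ y < x, itp (kv N S j) (N + 1) y < itp (kv N S i) (N + 1) y) ∧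
      ∀ y > x, itp (kv N S i) (N + 1) y < itp (kv N S j) (N + 1) y := by
    intro i j hij h0
    obtain ⟨q, φ, h1, h2, h3⟩ := phR hij (hs i j hij)
    have h0' : (ktm N S 0 j : ℝ) < ktm N S 0 i := by exact_mod_cast h0
    obtain ⟨x, x1, x2, x3⟩ := one_zero (D := fun t => kv N S i t - kv N S j t) h1 h2 h3 (by
      rw [kv_gt, kv_gt, kv_le (Nat.zero_le _), kv_le (Nat.zero_le _)]
      ring) (by
      rw [kv_le (Nat.zero_le _), kv_le (Nat.zero_le _)]
      linarith)
    refine ⟨x, ?_, fun y hy => ?_, fun y hy => ?_⟩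
    · rw [← itp_sub, sub_eq_zero] at x1
      exact x1
    · have := x2 y hy
      rw [← itp_sub] at this
      linarith
    · have := x3 y hy
      rw [← itp_sub] at this
      linarith
  have hps : ∀ i j, i ≠ j → ∃ x, Crosses (itp (kv N S i) (N + 1)) (itp (kv N S j) (N + 1)) x := by
    intro i j hij
    have hne0 : ktm N S 0 i ≠ ktm N S 0 j := by
      obtain ⟨q, φ, h1, h2, h3⟩ := phR hij (hs i j hij)
      intro h
      have := h3 0 (Nat.zero_le _)
      rw [kv_le (Nat.zero_le _), kv_le (Nat.zero_le _), h, sub_self, mul_zero] at this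
      exact lt_irrefl _ this
    rcases lt_or_gt_of_ne hne0 with h | h
    · obtain ⟨x, x1, x2, x3⟩ := hpair j i hij.symm h
      exact ⟨x, x1.symm, Or.inl ⟨x2, x3⟩⟩
    · obtain ⟨x, x1, x2, x3⟩ := hpair i j hij h
      exact ⟨x, x1, Or.inr ⟨x2, x3⟩⟩
  refine ⟨fun c => itp (kv N S c) (N + 1), fun i => itp_cont _ _, hps, n - k, ?_, ?_⟩
  · obtain ⟨c, d, h1, h2, h3, h4⟩ := exists_swap (hcard 0 (by omega)) (hcard 1 hN) (hne 0 hN)
    have : 0 < (S 0).card := Finset.card_pos.2 ⟨d, h3⟩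
    rw [hcard 0 (by omega)] at this
    have := d.2
    omega
  · refine le_psiT (vert_finite fun i j hij => ?_) (points (by omega) hcard hne)
    obtain ⟨x, x1, x2⟩ := hps i j hij
    refine (Set.finite_singleton x).subset (fun y hy => ?_)
    rw [Set.mem_ofPred_eq] at hy
    rw [Set.mem_singleton_iff]
    rcases lt_trichotomy y x with h | h | h
    · rcases x2 with ⟨x2, -⟩ | ⟨x2, -⟩
      · exact absurd hy (x2 y h).ne
      · exact absurd hy (x2 y h).ne'
    · exact h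
    · rcases x2 with ⟨-, x2⟩ | ⟨-, x2⟩
      · exact absurd hy (x2 y h).ne'
      · exact absurd hy (x2 y h).ne

end LevelTotal
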