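import Pool.Agent.LevelPseudo.Defs

/-!
# Keys: the order of the elements at each time
-/

namespace LevelTotal

open LevelLower LevelPseudo

variable {n : ℕ}

/-- Statuses of `a` and `b` in the set `S`. -/
def sdf (S : Finset (Fin n)) (a b : Fin n) : ℤ :=
  (if a ∈ S then 1 else 0) - (if b ∈ S then 1 else 0)

/-- keys: the last set in which two elements differ decides -/
def ky (X : ℕ → Finset (Fin n)) : ℕ → Fin n → ℕ
  | 0, c => c
  | m + 1, c => ky X m c + if c ∈ X m then n * 2 ^ m else 0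

theorem ky_lt (X : ℕ → Finset (Fin n)) (m : ℕ) (c : Fin n) : ky X m c < n * 2 ^ m := by
  induction m with
  | zero => simp [ky]
  | succ m ih =>
    have e : n * 2 ^ (m + 1) = n * 2 ^ m + n * 2 ^ m := by ring
    simp only [ky]
    split_ifs <;> omega

theorem ky_first (X : ℕ → Finset (Fin n)) {a b : Fin n} {u : ℕ} (ha : a ∈ X u) (hb : b ∉ X u)
    (m : ℕ) (hum : u < m) (h : ∀ v, u < v → v < m → (a ∈ X v ↔ b ∈ X v)) :
    ky X m b < ky X m a := by
  induction m with
  | zero => omega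
  | succ m ih =>
    rcases Nat.eq_or_lt_of_le (Nat.le_of_lt_succ hum) with h1 | h1
    · subst h1
      have := ky_lt X u b
      simp only [ky, if_pos ha, if_neg hb]
      omega
    · have h2 := ih h1 (fun v hv hv' => h v hv (by omega))
      have h3 := h m h1 (Nat.lt_succ_self m)
      simp only [ky, h3]
      omega

theorem ky_none (X : ℕ → Finset (Fin n)) {a b : Fin n} (m : ℕ)
    (h : ∀ v < m, (a ∈ X v ↔ b ∈ X v)) : (ky X m a : ℤ) - ky X m b = (a : ℕ) - (b : ℕ) := by
  induction m with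
  | zero => rfl
  | succ m ih =>
    have h2 := ih (fun v hv => h v (by omega))
    simp only [ky, h m (Nat.lt_succ_self m)]
    push_cast
    linarith

/-- the sequence followed by its reversal -/
def rv (N : ℕ) (S : ℕ → Finset (Fin n)) (u : ℕ) : Finset (Fin n) :=
  if u ≤ N then S u else S (2 * N + 1 - u)

/-- the key at time `t`: first the future, then the past, most recent first -/
def ktm (N : ℕ) (S : ℕ → Finset (Fin n)) (t : ℕ) (c : Fin n) : ℕ := ky (rv N S) (2 * N + 2 - t) c

theorem ktm_mem {N : ℕ} {S : ℕ → Finset (Fin n)} {t : ℕ} (ht : t ≤ N) {a b : Fin n}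
    (ha : a ∈ S t) (hb : b ∉ S t) : ktm N S t b < ktm N S t a := by
  have e : rv N S (2 * N + 1 - t) = S t := by
    unfold rv
    rw [if_neg (by omega)]
    congr 1
    omega
  unfold ktm
  refine ky_first (rv N S) (u := 2 * N + 1 - t) (by rwa [e]) (by rwa [e]) _ (by omega)
    (fun v hv hv' => ?_)
  omega

theorem sdf_cases (S : Finset (Fin n)) (a b : Fin n) :
    (sdf S a b = 0 ∧ (a ∈ S ↔ b ∈ S)) ∨ (sdf S a b = 1 ∧ a ∈ S ∧ b ∉ S) ∨
      (sdf S a b = -1 ∧ a ∉ S ∧ b ∈ S) := by
  unfold sdf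
  by_cases ha : a ∈ S <;> by_cases hb : b ∈ S <;> simp [ha, hb]

/-- the differences of the keys have the same alternations -/
theorem strictPh {N s p : ℕ} {S : ℕ → Finset (Fin n)} {a b : Fin n} (hab : a ≠ b)
    (h : Ph (fun t => sdf (S t) a b) 0 (N + 1) p (p + s)) :
    ∃ (q : ℕ) (φ : ℕ → ℕ), Monotone φ ∧ (∀ t, q ≤ φ t ∧ φ t ≤ q + s) ∧
      ∀ t ≤ N, 0 < (-1) ^ (φ t) * ((ktm N S t a : ℤ) - ktm N S t b) := by
  classical
  obtain ⟨φ, f1, f2, f3⟩ := h
  by_cases hz : ∀ t ≤ N, (a ∈ S t ↔ b ∈ S t)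
  · have hD : ∀ t ≤ N, (ktm N S t a : ℤ) - ktm N S t b = (a : ℕ) - (b : ℕ) := by
      intro t ht
      refine ky_none _ _ (fun v hv => ?_)
      unfold rv
      split_ifs with h1
      · exact hz v h1
      · exact hz _ (by omega)
    rcases lt_or_gt_of_ne (fun h => hab (Fin.ext h) : (a : ℕ) ≠ b) with h1 | h1
    · refine ⟨1, fun _ => 1, monotone_const, fun t => ⟨le_rfl, Nat.le_add_right _ _⟩, fun t ht => ?_⟩
      rw [hD t ht]
      have : ((a : ℕ) : ℤ) < ((b : ℕ) : ℤ) := by exact_mod_cast h1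
      rw [pow_one]
      linarith
    · refine ⟨0, fun _ => 0, monotone_const, fun t => ⟨le_rfl, Nat.le_add_right _ _⟩, fun t ht => ?_⟩
      rw [hD t ht]
      have : ((b : ℕ) : ℤ) < ((a : ℕ) : ℤ) := by exact_mod_cast h1
      rw [pow_zero]
      linarith
  · push Not at hz
    obtain ⟨t₁, ht₁, h₁⟩ := hz
    have h₁' : ¬ (a ∈ S t₁ ↔ b ∈ S t₁) := by tauto
    set tl := Nat.findGreatest (fun t => ¬ (a ∈ S t ↔ b ∈ S t)) N with htl
    have g1 : ¬ (a ∈ S tl ↔ b ∈ S tl) :=
      Nat.findGreatest_spec (P := fun t => ¬ (a ∈ S t ↔ b ∈ S t)) ht₁ h₁'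
    have g2 : tl ≤ N := Nat.findGreatest_le N
    have g3 : ∀ v, tl < v → v ≤ N → (a ∈ S v ↔ b ∈ S v) := by
      intro v hv hv'
      by_contra hcon
      exact Nat.findGreatest_is_greatest (P := fun t => ¬ (a ∈ S t ↔ b ∈ S t)) hv hv' hcon
    have hex : ∀ t, ∃ u, min t tl ≤ u ∧ ¬ (a ∈ S u ↔ b ∈ S u) := fun t =>
      ⟨tl, min_le_right _ _, g1⟩
    let ν : ℕ → ℕ := fun t => Nat.find (hex t)
    have ν1 : ∀ t, min t tl ≤ ν t ∧ ¬ (a ∈ S (ν t) ↔ b ∈ S (ν t)) := fun t =>
      Nat.find_spec (hex t)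
    have ν2 : ∀ t v, min t tl ≤ v → v < ν t → (a ∈ S v ↔ b ∈ S v) := by
      intro t v h1 h2
      by_contra hcon
      exact Nat.find_min (hex t) h2 ⟨h1, hcon⟩
    have ν3 : ∀ t, ν t ≤ tl := fun t => Nat.find_min' (hex t) ⟨min_le_right _ _, g1⟩
    have νm : Monotone ν := by
      intro t t' htt
      exact Nat.find_min' (hex t) ⟨le_trans (min_le_min_right _ htt) (ν1 t').1, (ν1 t').2⟩
    refine ⟨p, fun t => φ (ν t), fun x y hxy => f1 (νm hxy), fun t => f2 _, fun t ht => ?_⟩
    -- the deciding index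
    obtain ⟨u', hu1, hu2, hu3⟩ : ∃ u', u' < 2 * N + 2 - t ∧ rv N S u' = S (ν t) ∧
        ∀ v, u' < v → v < 2 * N + 2 - t → (a ∈ rv N S v ↔ b ∈ rv N S v) := by
      have h3 := ν3 t
      rcases Nat.lt_or_ge tl t with h | h
      · have e : ν t = tl := by
          have := (ν1 t).1
          rw [min_eq_right h.le] at this
          omega
        refine ⟨tl, by omega, ?_, fun v hv hv' => ?_⟩
        · unfold rv
          rw [if_pos g2, e]
        · unfold rv
          split_ifs with h1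
          · exact g3 v hv h1
          · exact g3 _ (by omega) (by omega)
      · have h4 := (ν1 t).1
        rw [min_eq_left h] at h4
        refine ⟨2 * N + 1 - ν t, by omega, ?_, fun v hv hv' => ?_⟩
        · unfold rv
          rw [if_neg (by omega)]
          congr 1
          omega
        · unfold rv
          rw [if_neg (by omega)]
          refine ν2 t _ ?_ (by omega)
          rw [min_eq_left h]
          omega
    have h5 := f3 (ν t) (Nat.zero_le _) (by have := ν3 t; omega)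
    dsimp only at h5
    rcases sdf_cases (S (ν t)) a b with ⟨-, h6⟩ | ⟨h6, h7, h8⟩ | ⟨h6, h7, h8⟩
    · exact absurd h6 (ν1 t).2
    · have h9 : ktm N S t b < ktm N S t a :=
        ky_first _ (by rwa [hu2]) (by rwa [hu2]) _ hu1 hu3
      have h10 : (0 : ℤ) < (ktm N S t a : ℤ) - ktm N S t b := by
        have : (ktm N S t b : ℤ) < ktm N S t a := by exact_mod_cast h9
        linarith
      rw [h6, mul_one] at h5
      rcases neg_one_pow_eq_or ℤ (φ (ν t)) with h11 | h11
      · rw [h11, one_mul]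
        exact h10
      · rw [h11] at h5
        norm_num at h5
    · have h9 : ktm N S t a < ktm N S t b :=
        ky_first _ (by rwa [hu2]) (by rwa [hu2]) _ hu1 (fun v hv hv' => (hu3 v hv hv').symm)
      have h10 : (ktm N S t a : ℤ) - ktm N S t b < 0 := by
        have : (ktm N S t a : ℤ) < ktm N S t b := by exact_mod_cast h9
        linarith
      rw [h6] at h5
      rcases neg_one_pow_eq_or ℤ (φ (ν t)) with h11 | h11
      · rw [h11] at h5
        norm_num at h5
      · rw [h11]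
        linarith

end LevelTotal
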